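import Pool.Agent.J4H58.SB.Stm
import Pool.Agent.J4H52.OC.Den

/-!
# The conditioned law has a log-concave density, any closed convex set (project KB of helper58, job DENB)
-/

set_option autoImplicit false

namespace Pool.Agent.J4H98.KB

open MeasureTheory Set Filter Topology
open Pool.Agent.J4H58.OC (LD nu pn LDn)
open Pool.Agent.J4H58.SB
open Pool.Agent.J4H52.OC (w_meas pn_eq)
open scoped ENNReal
open Pool.Agent.W695.KH (Eu)

variable {w : ℝ → ℝ} {n : ℕ}

open Classical in
/-- the density -/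
noncomputable def rho (w : ℝ → ℝ) (A : Set (Fin n → ℝ)) (x : Eu (Fin n)) : ℝ :=
  if WithLp.ofLp x ∈ A then ((pn w n) A).toReal⁻¹ * ∏ i, w (x i) else 0

theorem rho_nonneg (h : LD w) (A : Set (Fin n → ℝ)) (x : Eu (Fin n)) : 0 ≤ rho w A x := by
  unfold rho
  split_ifs
  · exact mul_nonneg (inv_nonneg.2 ENNReal.toReal_nonneg) (Finset.prod_nonneg fun i _ => h.nonneg _)
  · exact le_rfl

theorem rho_meas (h : LD w) {A : Set (Fin n → ℝ)} (hA : IsClosed A) : Measurable (rho w A) := by
  classical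
  unfold rho
  refine Measurable.ite ?_ ?_ measurable_const
  · exact hA.measurableSet.preimage (PiLp.continuous_ofLp 2 _).measurable
  · refine Measurable.const_mul ?_ _
    refine Finset.measurable_prod _ fun i _ => ?_
    exact (w_meas h).comp ((measurable_pi_apply i).comp (PiLp.continuous_ofLp 2 _).measurable)

theorem rho_logc (h : LD w) {A : Set (Fin n → ℝ)} (hA : Convex ℝ A) (x y : Eu (Fin n)) (t : ℝ)
    (h0 : 0 < t) (h1 : t < 1) :
    rho w A x ^ (1 - t) * rho w A y ^ t ≤ rho w A ((1 - t) • x + t • y) := by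
  by_cases hx : WithLp.ofLp x ∈ A
  swap
  · have : rho w A x = 0 := if_neg hx
    rw [this, Real.zero_rpow (by linarith), zero_mul]
    exact rho_nonneg h A _
  by_cases hy : WithLp.ofLp y ∈ A
  swap
  · have : rho w A y = 0 := if_neg hy
    rw [this, Real.zero_rpow (by linarith), mul_zero]
    exact rho_nonneg h A _
  have hz : WithLp.ofLp ((1 - t) • x + t • y) ∈ A :=
    hA hx hy (by linarith) h0.le (by ring)
  have ex : rho w A x = ((pn w n) A).toReal⁻¹ * ∏ i, w (x i) := if_pos hx
  have ey : rho w A y = ((pn w n) A).toReal⁻¹ * ∏ i, w (y i) := if_pos hy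
  have ez : rho w A ((1 - t) • x + t • y) =
    ((pn w n) A).toReal⁻¹ * ∏ i, w (((1 - t) • x + t • y) i) := if_pos hz
  rw [ex, ey, ez]
  set q := ((pn w n) A).toReal⁻¹ with hq
  have hq0 : 0 ≤ q := inv_nonneg.2 ENNReal.toReal_nonneg
  have hpx : 0 ≤ ∏ i, w (x i) := Finset.prod_nonneg fun i _ => h.nonneg _
  have hpy : 0 ≤ ∏ i, w (y i) := Finset.prod_nonneg fun i _ => h.nonneg _
  rw [Real.mul_rpow hq0 hpx, Real.mul_rpow hq0 hpy]
  have e1 : q ^ (1 - t) * (∏ i, w (x i)) ^ (1 - t) * (q ^ t * (∏ i, w (y i)) ^ t) =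
      q ^ (1 - t) * q ^ t * ((∏ i, w (x i)) ^ (1 - t) * (∏ i, w (y i)) ^ t) := by ring
  have e2 : q ^ (1 - t) * q ^ t = q := by
    rw [← Real.rpow_add_of_nonneg hq0 (by linarith) h0.le]
    simp
  rw [e1, e2]
  refine mul_le_mul_of_nonneg_left ?_ hq0
  rw [← Real.finsetProd_rpow _ _ (fun i _ => h.nonneg _),
    ← Real.finsetProd_rpow _ _ (fun i _ => h.nonneg _), ← Finset.prod_mul_distrib]
  refine Finset.prod_le_prod (fun i _ => mul_nonneg (Real.rpow_nonneg (h.nonneg _) _)
    (Real.rpow_nonneg (h.nonneg _) _)) fun i _ => ?_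
  exact h.logc (x i) (y i) t h0 h1

theorem lawA_eq (h : LD w) {A : Set (Fin n → ℝ)} (hA : IsClosed A) (h0 : pn w n A ≠ 0) :
    lawA w A = volume.withDensity fun x => ENNReal.ofReal (rho w A x) := by
  classical
  have hpn := J4H98.OC.pn_prob h n
  set p := (pn w n) A with hp
  have hpt : p ≠ ∞ := measure_ne_top _ _
  have hord : MeasurableSet A := hA.measurableSet
  have hm1 : Measurable (WithLp.toLp 2 : (Fin n → ℝ) → Eu (Fin n)) :=
    (PiLp.continuous_toLp 2 _).measurable
  refine Measure.ext fun s hs => ?_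
  unfold lawA
  rw [Measure.map_apply hm1 hs, Measure.smul_apply, ← hp, withDensity_apply _ hs,
    Measure.restrict_apply (hm1 hs), smul_eq_mul, pn_eq h n,
    withDensity_apply _ ((hm1 hs).inter hord)]
  have hmp : MeasurePreserving (WithLp.toLp 2 : (Fin n → ℝ) → Eu (Fin n)) :=
    PiLp.volume_preserving_toLp (Fin n)
  have hρ : Measurable fun x : Eu (Fin n) => ENNReal.ofReal (rho w A x) :=
    (rho_meas h hA).ennreal_ofReal
  rw [← hmp.setLIntegral_comp_preimage hs hρ]
  have e1 : ∀ y : Fin n → ℝ, ENNReal.ofReal (rho w A (WithLp.toLp 2 y)) =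
      p⁻¹ * A.indicator (fun y => ∏ i, ENNReal.ofReal (w (y i))) y := by
    intro y
    by_cases hy : y ∈ A
    · rw [indicator_of_mem hy]
      have : rho w A (WithLp.toLp 2 y) = p.toReal⁻¹ * ∏ i, w (y i) := if_pos hy
      rw [this, ENNReal.ofReal_mul (inv_nonneg.2 ENNReal.toReal_nonneg),
        ENNReal.ofReal_prod_of_nonneg (fun i _ => h.nonneg _),
        ENNReal.ofReal_inv_of_pos (ENNReal.toReal_pos h0 hpt), ENNReal.ofReal_toReal hpt]
    · rw [indicator_of_notMem hy, mul_zero]
      have : rho w A (WithLp.toLp 2 y) = 0 := if_neg hy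
      rw [this, ENNReal.ofReal_zero]
  simp only [e1]
  have hg : Measurable fun y : Fin n → ℝ => ∏ i, ENNReal.ofReal (w (y i)) :=
    Finset.measurable_prod _ fun i _ => ((w_meas h).comp (measurable_pi_apply i)).ennreal_ofReal
  rw [lintegral_const_mul _ (hg.indicator hord), setLIntegral_indicator hord, inter_comm]

theorem lawA_prob (h : LD w) {A : Set (Fin n → ℝ)} (h0 : pn w n A ≠ 0) :
    IsProbabilityMeasure (lawA w A) := by
  have := J4H98.OC.pn_prob h n
  have h1 : pn w n A ≠ ∞ := measure_ne_top _ _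
  constructor
  rw [lawA, Measure.map_apply (by fun_prop) MeasurableSet.univ]
  simp only [preimage_univ, Measure.smul_apply, Measure.restrict_apply MeasurableSet.univ,
    univ_inter, smul_eq_mul]
  exact ENNReal.inv_mul_cancel h0 h1

theorem t_DENB : S_DENB := by
  intro w n A h hA hconv h0
  have hlaw := lawA_eq h hA h0
  have hP := lawA_prob h h0
  refine ⟨rho w A, ?_, hlaw⟩
  have h1 : ∫⁻ x, ENNReal.ofReal (rho w A x) = 1 := by
    have := hP.measure_univ
    rw [hlaw, withDensity_apply _ MeasurableSet.univ, Measure.restrict_univ] at this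
    exact this
  have hint : Integrable (rho w A) := by
    refine ⟨(rho_meas h hA).aestronglyMeasurable, ?_⟩
    rw [hasFiniteIntegral_iff_ofReal (Eventually.of_forall fun x => rho_nonneg h A x), h1]
    exact ENNReal.one_lt_top
  refine ⟨rho_nonneg h A, rho_meas h hA, rho_logc h hconv, hint, ?_⟩
  rw [integral_eq_lintegral_of_nonneg_ae (Eventually.of_forall fun x => rho_nonneg h A x)
    (rho_meas h hA).aestronglyMeasurable, h1, ENNReal.toReal_one]

end Pool.Agent.J4H98.KB
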