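import Pool.Agent.J4H98.KB.Denb

/-!
# The largest variance of the conditioned law (project KB of helper58, job VARB)
-/

set_option autoImplicit false

namespace Pool.Agent.J4H98.KB

open MeasureTheory Set Filter Topology ProbabilityTheory
open Pool.Agent.J4H58.OC (LD nu pn)
open Pool.Agent.J4H58.SB
open Pool.Agent.J4H52.OC (w_meas pn_eq)
open scoped ENNReal InnerProductSpace

variable {w : ℝ → ℝ} {n : ℕ}

/-- density of the image of the product measure -/
theorem pi_map (h : LD w) {T ρ : ℝ → ℝ} (hT : Measurable T) (hρ : Measurable ρ)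
    (hρ0 : ∀ x, 0 ≤ ρ x)
    (hmap : (nu w).map T = (nu w).withDensity fun x => ENNReal.ofReal (ρ x)) (n : ℕ) :
    (pn w n).map (fun x i => T (x i)) =
      (pn w n).withDensity fun x => ENNReal.ofReal (∏ i, ρ (x i)) := by
  have hν := J4H98.OC.nu_prob h
  have hmp : IsProbabilityMeasure ((nu w).map T) := Measure.isProbabilityMeasure_map hT.aemeasurable
  have hwm : Measurable fun x => ENNReal.ofReal (w x) := (w_meas h).ennreal_ofReal
  have hrm : Measurable fun x => ENNReal.ofReal (ρ x) := hρ.ennreal_ofReal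
  have e1 : (pn w n).map (fun x i => T (x i)) = Measure.pi fun _ : Fin n => (nu w).map T := by
    unfold pn
    exact Measure.pi_map_pi (f := fun _ => T) fun _ => hT.aemeasurable
  have e2 : (nu w).map T =
      volume.withDensity fun x => ENNReal.ofReal (w x) * ENNReal.ofReal (ρ x) := by
    rw [hmap]
    exact (withDensity_mul volume hwm hrm).symm
  rw [e2] at hmp
  rw [e1, e2, H988R2.pi_withDensity_real (fun _ x => ENNReal.ofReal (w x) * ENNReal.ofReal (ρ x))
    (fun _ => hwm.mul hrm) (fun _ => inferInstance), pn_eq h n]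
  have hwp : Measurable fun y : Fin n → ℝ => ∏ i, ENNReal.ofReal (w (y i)) :=
    Finset.measurable_prod _ fun i _ => hwm.comp (measurable_pi_apply i)
  have hrp : Measurable fun y : Fin n → ℝ => ENNReal.ofReal (∏ i, ρ (y i)) :=
    (Finset.measurable_prod _ fun i _ => hρ.comp (measurable_pi_apply i)).ennreal_ofReal
  rw [← withDensity_mul volume hwp hrp]
  congr 1
  funext y
  simp only [Pi.mul_apply]
  rw [Finset.prod_mul_distrib, ENNReal.ofReal_prod_of_nonneg (fun i _ => hρ0 _)]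

/-- the law of an even density is even -/
theorem nu_neg (_h : LD w) (hev : ∀ x, w (-x) = w x) : (nu w).map (fun x => -x) = nu w := by
  refine Measure.ext fun s hs => ?_
  rw [Measure.map_apply measurable_neg hs]
  unfold nu
  rw [withDensity_apply _ hs, withDensity_apply _ (measurable_neg hs)]
  have h1 := (Measure.measurePreserving_neg (volume : Measure ℝ)).setLIntegral_comp_preimage_emb
    (MeasurableEquiv.neg ℝ).measurableEmbedding (fun x => ENNReal.ofReal (w x)) s
  rw [← h1]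
  refine setLIntegral_congr_fun (measurable_neg hs) fun x _ => ?_
  simp only [hev]

/-- the conditioned measure -/
noncomputable def mc (w : ℝ → ℝ) (A : Set (Fin n → ℝ)) : Measure (Fin n → ℝ) :=
  (pn w n A)⁻¹ • (pn w n).restrict A

theorem mc_prob (h : LD w) {A : Set (Fin n → ℝ)} (h0 : pn w n A ≠ 0) :
    IsProbabilityMeasure (mc w A) := by
  have := J4H98.OC.pn_prob h n
  constructor
  simp only [mc, Measure.smul_apply, Measure.restrict_apply MeasurableSet.univ,
    univ_inter, smul_eq_mul]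
  exact ENNReal.inv_mul_cancel h0 (measure_ne_top _ _)

theorem mc_int (A : Set (Fin n → ℝ)) (f : (Fin n → ℝ) → ℝ) : ∫ x, f x ∂(mc w A) =
    (pn w n A).toReal⁻¹ * ∫ x in A, f x ∂(pn w n) := by
  rw [mc, integral_smul_measure, ENNReal.toReal_inv, smul_eq_mul]

theorem mc_memLp {A : Set (Fin n → ℝ)} (h0 : pn w n A ≠ 0) {f : (Fin n → ℝ) → ℝ} {p : ℝ≥0∞}
    (hi : MemLp f p (pn w n)) : MemLp f p (mc w A) :=
  (hi.restrict _).smul_measure (ENNReal.inv_ne_top.2 h0)

theorem ordB_closed (R : SL n → SL n → Prop) : IsClosed (ordB R) := by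
  have hc : ∀ a : SL n, Continuous fun x : Fin n → ℝ => sv x a := by
    intro a
    unfold sv
    split_ifs
    · exact continuous_apply _
    · exact (continuous_apply _).neg
  have h : ordB R = ⋂ a, ⋂ b, ⋂ (_ : R a b), {x | sv x a ≤ sv x b} := by
    ext x; simp only [ordB, mem_ofPred_eq, mem_iInter]
  rw [h]
  exact isClosed_iInter fun a => isClosed_iInter fun b => isClosed_iInter fun _ =>
    isClosed_le (hc a) (hc b)

theorem symB_prod {φ : ℝ → ℝ} (hφ : ∀ x, φ (-x) = φ x) :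
    SymB (fun x : Fin n → ℝ => ∏ i, φ (x i)) := by
  intro p e x
  have : ∀ i, φ (if e i then x (p i) else -x (p i)) = φ (x (p i)) := by
    intro i
    split_ifs
    · rfl
    · exact hφ _
  simp only [this]
  exact Equiv.prod_comp p (fun i => φ (x i))

theorem symB_sum {φ : ℝ → ℝ} (hφ : ∀ x, φ (-x) = φ x) :
    SymB (fun x : Fin n → ℝ => ∑ i, φ (x i)) := by
  intro p e x
  have : ∀ i, φ (if e i then x (p i) else -x (p i)) = φ (x (p i)) := by
    intro i
    split_ifs
    · rfl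
    · exact hφ _
  simp only [this]
  exact Equiv.sum_comp p (fun i => φ (x i))

/-- the variance of linear forms -/
theorem var_lin {A : Set (Fin n → ℝ)} {s : ℝ}
    (hvar : ∀ θ : EuclideanSpace ℝ (Fin n), ‖θ‖ = 1 →
      variance (fun x => ⟪x, θ⟫_ℝ) (lawA w A) ≤ s) (θ : Fin n → ℝ) :
    variance (fun x : Fin n → ℝ => ∑ i, θ i * x i) (mc w A) ≤ s * ∑ i, θ i ^ 2 := by
  set t : EuclideanSpace ℝ (Fin n) := WithLp.toLp 2 θ with ht
  have hn : ‖t‖ ^ 2 = ∑ i, θ i ^ 2 := by
    rw [EuclideanSpace.norm_eq, Real.sq_sqrt (Finset.sum_nonneg fun i _ => sq_nonneg _)]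
    refine Finset.sum_congr rfl fun i _ => ?_
    rw [Real.norm_eq_abs, sq_abs]
  by_cases h0 : t = 0
  · have hθ : ∀ i, θ i = 0 := by
      intro i
      have := congrArg (fun v : EuclideanSpace ℝ (Fin n) => v i) h0
      simpa [ht] using this
    simp only [hθ, zero_mul, Finset.sum_const_zero]
    have : variance (fun _ : Fin n → ℝ => (0 : ℝ)) (mc w A) = 0 := by
      have := variance_const_mul 0 (fun _ : Fin n → ℝ => (0 : ℝ)) (mc w A)
      simpa using this
    rw [this]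
    simp
  · have hpos : 0 < ‖t‖ := norm_pos_iff.2 h0
    have h1 := hvar (‖t‖⁻¹ • t) (by
      rw [norm_smul, norm_inv, norm_norm, inv_mul_cancel₀ hpos.ne'])
    have h2 : lawA w A = (mc w A).map (WithLp.toLp 2) := rfl
    rw [h2, variance_map (by fun_prop) (by fun_prop)] at h1
    have h3 : ((fun x : EuclideanSpace ℝ (Fin n) => ⟪x, ‖t‖⁻¹ • t⟫_ℝ) ∘ WithLp.toLp 2) =
        fun x : Fin n → ℝ => ‖t‖⁻¹ * ∑ i, θ i * x i := by
      funext x
      simp only [Function.comp_apply]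
      rw [inner_smul_right, PiLp.inner_apply]
      congr 1
    rw [h3, variance_const_mul] at h1
    rw [← hn]
    have h4 : (‖t‖⁻¹) ^ 2 * ‖t‖ ^ 2 = 1 := by
      rw [← mul_pow, inv_mul_cancel₀ hpos.ne', one_pow]
    calc variance (fun x : Fin n → ℝ => ∑ i, θ i * x i) (mc w A) =
        (‖t‖⁻¹) ^ 2 * variance (fun x : Fin n → ℝ => ∑ i, θ i * x i) (mc w A) * ‖t‖ ^ 2 := by
          rw [mul_right_comm, h4, one_mul]
      _ ≤ s * ‖t‖ ^ 2 := mul_le_mul_of_nonneg_right h1 (by positivity)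

/-- the transport -/
theorem transport (h : LD w) {D ρ : ℝ → ℝ} (hD : Measurable D) (hρ : Measurable ρ)
    (hρ0 : ∀ x, 0 ≤ ρ x) (hDo : ∀ x, D (-x) = -D x) (hmono : StrictMono fun x => x + D x)
    (hmap : (nu w).map (fun x => x + D x) = (nu w).withDensity fun x => ENNReal.ofReal (ρ x))
    (R : SL n → SL n → Prop) (f : (Fin n → ℝ) → ℝ) (hf : Measurable f) :
    ∫ x : Fin n → ℝ, f (fun i => x i + D (x i)) ∂(mc w (ordB R)) =
      ∫ x : Fin n → ℝ, (∏ i, ρ (x i)) * f x ∂(mc w (ordB R)) := by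
  set T : (Fin n → ℝ) → (Fin n → ℝ) := fun x i => x i + D (x i) with hT
  have hTm : Measurable T := measurable_pi_lambda _ fun i =>
    (measurable_pi_apply i).add (hD.comp (measurable_pi_apply i))
  have hPim : Measurable fun x : Fin n → ℝ => ∏ i, ρ (x i) :=
    Finset.measurable_prod _ fun i _ => hρ.comp (measurable_pi_apply i)
  have hPi0 : ∀ x : Fin n → ℝ, 0 ≤ ∏ i, ρ (x i) := fun x => Finset.prod_nonneg fun i _ => hρ0 _
  have hPT := pi_map h (T := fun x => x + D x) (measurable_id.add hD) hρ hρ0 hmap n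
  have hO : ∀ x, T x ∈ ordB R ↔ x ∈ ordB R := by
    intro x
    have h1 : ∀ a : SL n, sv (T x) a = sv x a + D (sv x a) := by
      intro a
      unfold sv
      split_ifs
      · rfl
      · rw [hDo, hT]
        simp only
        ring
    refine forall₃_congr fun a b _ => ?_
    rw [h1, h1]
    exact hmono.le_iff_le
  have hOm : MeasurableSet (ordB R) := (ordB_closed R).measurableSet
  rw [mc_int, mc_int]
  congr 1
  rw [← integral_indicator hOm, ← integral_indicator hOm]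
  have e1 : (ordB R).indicator (fun x => f (T x)) = fun x => (ordB R).indicator f (T x) := by
    funext x
    by_cases hx : x ∈ ordB R
    · rw [indicator_of_mem hx, indicator_of_mem ((hO x).2 hx)]
    · rw [indicator_of_notMem hx, indicator_of_notMem fun h' => hx ((hO x).1 h')]
  have e2 : ∫ x, (ordB R).indicator f (T x) ∂(pn w n) =
      ∫ x, (ordB R).indicator f x ∂((pn w n).map T) :=
    (integral_map hTm.aemeasurable (hf.indicator hOm).aestronglyMeasurable).symm
  rw [e1, e2]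
  change ∫ x, (ordB R).indicator f x ∂((pn w n).map fun x i => x i + D (x i)) = _
  rw [hPT, integral_withDensity_eq_integral_toReal_smul hPim.ennreal_ofReal
    (Eventually.of_forall fun x => ENNReal.ofReal_lt_top)]
  refine integral_congr_ae (Eventually.of_forall fun x => ?_)
  simp only [smul_eq_mul]
  rw [ENNReal.toReal_ofReal (hPi0 x)]
  by_cases hx : x ∈ ordB R
  · rw [indicator_of_mem hx, indicator_of_mem hx]
  · rw [indicator_of_notMem hx, indicator_of_notMem hx, mul_zero]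

/-- means of symmetric functions -/
theorem int_symB (hSYM : S_SYMB) (h : LD w) (hev : ∀ x, w (-x) = w x) (R : SL n → SL n → Prop)
    (h0 : pn w n (ordB R) ≠ 0) {G : (Fin n → ℝ) → ℝ} (hG : Integrable G (pn w n)) (hs : SymB G) :
    ∫ x, G x ∂(mc w (ordB R)) = ∫ x, G x ∂(pn w n) := by
  have hν := J4H98.OC.nu_prob h
  have hP := J4H98.OC.pn_prob h n
  have h1 : (pn w n (ordB R)).toReal ≠ 0 := ENNReal.toReal_ne_zero.2 ⟨h0, measure_ne_top _ _⟩
  have h2 := hSYM n (nu w) inferInstance J4H98.OC.nu_atom (nu_neg h hev) R G hG hs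
  rw [mc_int]
  change _ * ∫ x in ordB R, G x ∂(Measure.pi fun _ => nu w) = _
  rw [h2]
  change (pn w n (ordB R)).toReal⁻¹ * ((pn w n (ordB R)).toReal * _) = _
  rw [inv_mul_cancel_left₀ h1]
  rfl

/-- the product of the densities -/
theorem pi_moments (hSYM : S_SYMB) (h : LD w) (hev : ∀ x, w (-x) = w x) (R : SL n → SL n → Prop)
    (h0 : pn w n (ordB R) ≠ 0) (hn : 1 ≤ n) {ρ : ℝ → ℝ} (hρ : Measurable ρ) (hρ0 : ∀ x, 0 ≤ ρ x)
    (hρe : ∀ x, ρ (-x) = ρ x) (hρ1 : ∀ x, (ρ x - 1) ^ 2 ≤ 1 / n) (hρ2 : ∀ x, ρ x ≤ 2)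
    (hone : ∫⁻ x, ENNReal.ofReal (ρ x) ∂(nu w) = 1) :
    MemLp (fun x : Fin n → ℝ => (∏ i, ρ (x i)) - 1) 2 (mc w (ordB R)) ∧
    ∫ x : Fin n → ℝ, ((∏ i, ρ (x i)) - 1) ∂(mc w (ordB R)) = 0 ∧
    ∫ x : Fin n → ℝ, ((∏ i, ρ (x i)) - 1) ^ 2 ∂(mc w (ordB R)) ≤ 2 := by
  have hν := J4H98.OC.nu_prob h
  have hP := J4H98.OC.pn_prob h n
  have hμ := mc_prob h h0
  have hn0 : (0 : ℝ) < n := by exact_mod_cast hn
  have hPim : Measurable fun x : Fin n → ℝ => ∏ i, ρ (x i) :=
    Finset.measurable_prod _ fun i _ => hρ.comp (measurable_pi_apply i)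
  have hPi0 : ∀ x : Fin n → ℝ, 0 ≤ ∏ i, ρ (x i) := fun x => Finset.prod_nonneg fun i _ => hρ0 _
  have hPib : ∀ x : Fin n → ℝ, ∏ i, ρ (x i) ≤ 2 ^ n := by
    intro x
    refine (Finset.prod_le_prod (fun i _ => hρ0 _) fun i _ => hρ2 (x i)).trans ?_
    simp
  have hMP : MemLp (fun x : Fin n → ℝ => ∏ i, ρ (x i)) 2 (pn w n) :=
    MemLp.of_bound hPim.aestronglyMeasurable (2 ^ n) (Eventually.of_forall fun x => by
      rw [Real.norm_eq_abs, abs_of_nonneg (hPi0 x)]; exact hPib x)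
  have hMμ : MemLp (fun x : Fin n → ℝ => ∏ i, ρ (x i)) 2 (mc w (ordB R)) := mc_memLp h0 hMP
  have hI1 : ∫ x, ρ x ∂(nu w) = 1 := by
    rw [integral_eq_lintegral_of_nonneg_ae (Eventually.of_forall hρ0) hρ.aestronglyMeasurable,
      hone, ENNReal.toReal_one]
  have hρi : Integrable ρ (nu w) := Integrable.of_bound hρ.aestronglyMeasurable 2
    (Eventually.of_forall fun x => by rw [Real.norm_eq_abs, abs_of_nonneg (hρ0 x)]; exact hρ2 x)
  have hρi2 : Integrable (fun x => ρ x ^ 2) (nu w) :=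
    Integrable.of_bound (hρ.pow_const 2).aestronglyMeasurable 4
      (Eventually.of_forall fun x => by
        rw [Real.norm_eq_abs, abs_of_nonneg (sq_nonneg _)]
        have := hρ0 x
        have := hρ2 x
        nlinarith)
  have hI2 : ∫ x, ρ x ^ 2 ∂(nu w) ≤ 1 + 1 / n := by
    have e1 : ∫ x, ρ x ^ 2 ∂(nu w) ≤ ∫ x, ((1 / (n : ℝ) - 1) + 2 * ρ x) ∂(nu w) := by
      refine integral_mono hρi2 ((integrable_const _).add (hρi.const_mul 2)) fun x => ?_
      have := hρ1 x
      simp only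
      nlinarith
    rw [integral_add (integrable_const _) (hρi.const_mul 2), integral_const_mul, hI1] at e1
    simp at e1
    have : (n : ℝ)⁻¹ = 1 / n := (one_div _).symm
    linarith
  have hE1 : ∫ x : Fin n → ℝ, ∏ i, ρ (x i) ∂(mc w (ordB R)) = 1 := by
    rw [int_symB hSYM h hev R h0 (hMP.integrable (by norm_num)) (symB_prod hρe)]
    change ∫ x : Fin n → ℝ, ∏ i, ρ (x i) ∂(Measure.pi fun _ => nu w) = 1
    rw [integral_fintype_prod_eq_pow (𝕜 := ℝ) ρ, hI1, one_pow]
  have hE2 : ∫ x : Fin n → ℝ, (∏ i, ρ (x i)) ^ 2 ∂(mc w (ordB R)) ≤ 3 := by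
    have e1 : SymB fun x : Fin n → ℝ => (∏ i, ρ (x i)) ^ 2 := fun p e x =>
      congrArg (· ^ 2) (symB_prod hρe p e x)
    rw [int_symB hSYM h hev R h0 hMP.integrable_sq e1]
    have e2 : (fun x : Fin n → ℝ => (∏ i, ρ (x i)) ^ 2) = fun x => ∏ i, (ρ (x i) ^ 2) := by
      funext x
      rw [Finset.prod_pow]
    rw [e2]
    change ∫ x : Fin n → ℝ, ∏ i, ρ (x i) ^ 2 ∂(Measure.pi fun _ => nu w) ≤ 3
    rw [integral_fintype_prod_eq_pow (𝕜 := ℝ) (fun x => ρ x ^ 2), Fintype.card_fin]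
    have e3 : 0 ≤ ∫ x, ρ x ^ 2 ∂(nu w) := integral_nonneg fun x => sq_nonneg _
    calc (∫ x, ρ x ^ 2 ∂(nu w)) ^ n ≤ (Real.exp (1 / n)) ^ n := by
          refine pow_le_pow_left₀ e3 (hI2.trans ?_) n
          have := Real.add_one_le_exp (1 / (n : ℝ))
          linarith
      _ = Real.exp 1 := by
          rw [← Real.exp_nat_mul]
          congr 1
          field_simp
      _ ≤ 3 := by have := Real.exp_one_lt_d9; linarith
  refine ⟨hMμ.sub (memLp_const 1), ?_, ?_⟩
  · rw [integral_sub (hMμ.integrable (by norm_num)) (integrable_const _), hE1]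
    simp
  · have e1 : (fun x : Fin n → ℝ => ((∏ i, ρ (x i)) - 1) ^ 2) =
        fun x => ((∏ i, ρ (x i)) ^ 2 - 2 * ∏ i, ρ (x i)) + 1 := by
      funext x
      ring
    have i1 : Integrable (fun x : Fin n → ℝ => ∏ i, ρ (x i)) (mc w (ordB R)) :=
      hMμ.integrable (by norm_num)
    rw [e1, integral_add (f := fun x : Fin n → ℝ => (∏ i, ρ (x i)) ^ 2 - 2 * ∏ i, ρ (x i))
      (hMμ.integrable_sq.sub (i1.const_mul 2)) (integrable_const _),
      integral_sub hMμ.integrable_sq (i1.const_mul 2), integral_const_mul, hE1]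
    simp
    linarith

theorem t_VARB : S_MAP → S_M2 → S_SYMB → S_VARB := by
  rintro ⟨C, hC1, hC⟩ hM2 hSYM
  have hC0 : 0 < C := by linarith
  refine ⟨(1 / (C * (6 + C))) ^ 2, by positivity, ?_⟩
  intro w n R h hev hn h0 s hs hvar
  obtain ⟨hw0, hi2, hI2⟩ := hM2 w h hev
  have hν := J4H98.OC.nu_prob h
  have hP := J4H98.OC.pn_prob h n
  have hμ := mc_prob h h0
  have hn0 : (0 : ℝ) < n := by exact_mod_cast hn
  have hn1 : (1 : ℝ) ≤ n := by exact_mod_cast hn
  obtain ⟨N, hN⟩ : ∃ N : ℝ, N = √(n : ℝ) := ⟨_, rfl⟩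
  have hNN : N ^ 2 = n := by rw [hN]; exact Real.sq_sqrt hn0.le
  have hN0 : 0 < N := by rw [hN]; exact Real.sqrt_pos.2 hn0
  have hN1 : 1 ≤ N := by rw [hN]; exact Real.one_le_sqrt.2 hn1
  obtain ⟨ε, hε⟩ : ∃ ε : ℝ, ε = 1 / (2 * N) := ⟨_, rfl⟩
  have hε0 : 0 < ε := by rw [hε]; positivity
  have hε1 : ε ≤ 1 / 2 := by
    rw [hε]
    exact one_div_le_one_div_of_le (by norm_num) (by linarith)
  have h2ε : (2 * ε) ^ 2 = 1 / n := by
    rw [hε, ← hNN]
    field_simp
  obtain ⟨D, ρ, hD, hρ, hDo, hρe, hmono, hρ1, hmap, hDb, hID⟩ := hC w h hev ε hε0 hε1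
  have hρ0 : ∀ x, 0 ≤ ρ x := fun x => by have := (abs_le.1 (hρ1 x)).1; linarith
  have hρ2 : ∀ x, ρ x ≤ 2 := fun x => by have := (abs_le.1 (hρ1 x)).2; linarith
  have hρs : ∀ x, (ρ x - 1) ^ 2 ≤ 1 / n := fun x => by
    rw [← h2ε]
    exact sq_le_sq' (abs_le.1 (hρ1 x)).1 (abs_le.1 (hρ1 x)).2
  have hone : ∫⁻ x, ENNReal.ofReal (ρ x) ∂(nu w) = 1 := by
    have h1 : ((nu w).map fun x => x + D x) univ =
        ((nu w).withDensity fun x => ENNReal.ofReal (ρ x)) univ := by rw [hmap]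
    have hTm : Measurable fun x => x + D x := measurable_id.add hD
    rw [Measure.map_apply hTm MeasurableSet.univ, preimage_univ, measure_univ,
      withDensity_apply _ MeasurableSet.univ, Measure.restrict_univ] at h1
    exact h1.symm
  obtain ⟨hQ, hQ0, hQ2⟩ := pi_moments hSYM h hev R h0 hn hρ hρ0 hρe hρs hρ2 hone
  -- coordinates
  have hx2 : MemLp (fun x : ℝ => x) 2 (nu w) :=
    (memLp_two_iff_integrable_sq aestronglyMeasurable_id).2 hi2
  have hmp : ∀ i : Fin n, MeasurePreserving (fun x : Fin n → ℝ => x i) (pn w n) (nu w) := fun i =>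
    measurePreserving_eval (fun _ : Fin n => nu w) i
  have hxP : ∀ i : Fin n, MemLp (fun x : Fin n → ℝ => x i) 2 (pn w n) := fun i =>
    hx2.comp_measurePreserving (hmp i)
  have hxμ : ∀ i : Fin n, MemLp (fun x : Fin n → ℝ => x i) 2 (mc w (ordB R)) := fun i =>
    mc_memLp h0 (hxP i)
  obtain ⟨m, hm⟩ : ∃ m : Fin n → ℝ, ∀ i, ∫ x : Fin n → ℝ, x i ∂(mc w (ordB R)) = m i :=
    ⟨_, fun _ => rfl⟩
  obtain ⟨M, hM⟩ : ∃ M : ℝ, M = ∑ i, m i ^ 2 := ⟨_, rfl⟩
  have hLμ : MemLp (fun x : Fin n → ℝ => ∑ i, m i * x i) 2 (mc w (ordB R)) :=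
    memLp_finsetSum _ fun i _ => (hxμ i).const_mul (m i)
  have hLi : Integrable (fun x : Fin n → ℝ => ∑ i, m i * x i) (mc w (ordB R)) :=
    hLμ.integrable (by norm_num)
  have hEL : ∫ x : Fin n → ℝ, ∑ i, m i * x i ∂(mc w (ordB R)) = M := by
    rw [integral_finsetSum _ fun i _ => ((hxμ i).const_mul (m i)).integrable (by norm_num), hM]
    refine Finset.sum_congr rfl fun i _ => ?_
    rw [integral_const_mul, hm]
    ring
  have hVL : ∫ x : Fin n → ℝ, ((∑ i, m i * x i) - M) ^ 2 ∂(mc w (ordB R)) ≤ s * M := by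
    have h1 := var_lin hvar m
    rw [variance_eq_integral hLμ.aestronglyMeasurable.aemeasurable, hEL, ← hM] at h1
    exact h1
  have hVi : ∀ i, ∫ x : Fin n → ℝ, (x i - m i) ^ 2 ∂(mc w (ordB R)) ≤ s := by
    intro i
    have h1 := var_lin hvar (Pi.single i 1)
    have e1 : (fun x : Fin n → ℝ => ∑ j, (Pi.single i (1 : ℝ) : Fin n → ℝ) j * x j) =
        fun x => x i := by
      funext x
      rw [Finset.sum_eq_single i]
      · simp
      · intro j _ hj
        rw [Pi.single_eq_of_ne hj, zero_mul]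
      · intro hi
        exact absurd (Finset.mem_univ i) hi
    have e2 : ∑ j, (Pi.single i (1 : ℝ) : Fin n → ℝ) j ^ 2 = 1 := by
      rw [Finset.sum_eq_single i]
      · simp
      · intro j _ hj
        rw [Pi.single_eq_of_ne hj]
        norm_num
      · intro hi
        exact absurd (Finset.mem_univ i) hi
    rw [e1, e2, mul_one, variance_eq_integral (hxμ i).aestronglyMeasurable.aemeasurable, hm] at h1
    exact h1
  have hSP : Integrable (fun x : Fin n → ℝ => ∑ i, x i ^ 2) (pn w n) :=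
    integrable_finsetSum _ fun i _ => (hxP i).integrable_sq
  have hcoord : ∀ (φ : ℝ → ℝ), Measurable φ → ∀ i : Fin n,
      ∫ x : Fin n → ℝ, φ (x i) ∂(pn w n) = ∫ x, φ x ∂(nu w) := by
    intro φ hφ i
    rw [← (hmp i).map_eq, integral_map (hmp i).measurable.aemeasurable hφ.aestronglyMeasurable]
  have hMle : M ≤ n * (4 / w 0 ^ 2) := by
    have e1 : ∀ i, m i ^ 2 ≤ ∫ x : Fin n → ℝ, x i ^ 2 ∂(mc w (ordB R)) := by
      intro i
      have h1 := variance_nonneg (fun x : Fin n → ℝ => x i) (mc w (ordB R))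
      rw [variance_eq_sub (hxμ i)] at h1
      simp only [Pi.pow_apply] at h1
      rw [hm] at h1
      linarith
    calc M ≤ ∑ i, ∫ x : Fin n → ℝ, x i ^ 2 ∂(mc w (ordB R)) := by
          rw [hM]
          exact Finset.sum_le_sum fun i _ => e1 i
      _ = ∫ x : Fin n → ℝ, ∑ i, x i ^ 2 ∂(mc w (ordB R)) :=
          (integral_finsetSum _ fun i _ => (hxμ i).integrable_sq).symm
      _ = ∫ x : Fin n → ℝ, ∑ i, x i ^ 2 ∂(pn w n) :=
          int_symB hSYM h hev R h0 hSP (symB_sum (φ := fun x => x ^ 2) fun x => by ring)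
      _ = ∑ i : Fin n, ∫ x, x ^ 2 ∂(nu w) := by
          rw [integral_finsetSum _ fun i _ => (hxP i).integrable_sq]
          exact Finset.sum_congr rfl fun i _ => hcoord (fun x => x ^ 2) (by fun_prop) i
      _ = n * ∫ x, x ^ 2 ∂(nu w) := by simp
      _ ≤ n * (4 / w 0 ^ 2) := mul_le_mul_of_nonneg_left hI2 hn0.le
  -- the displacement
  obtain ⟨b, hb⟩ : ∃ b : ℝ, b = C * ε / w 0 := ⟨_, rfl⟩
  have hb0 : 0 < b := by rw [hb]; positivity
  have hDx : ∀ x, |D x| ≤ b := fun x => by rw [hb]; exact hDb x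
  have hDL : ∀ i : Fin n, MemLp (fun x : Fin n → ℝ => D (x i)) 2 (mc w (ordB R)) := fun i =>
    MemLp.of_bound (hD.comp (measurable_pi_apply i)).aestronglyMeasurable b
      (Eventually.of_forall fun x => by rw [Real.norm_eq_abs]; exact hDx _)
  have hDi : ∀ i : Fin n, Integrable (fun x : Fin n → ℝ => D (x i)) (mc w (ordB R)) := fun i =>
    (hDL i).integrable (by norm_num)
  have hAi : Integrable (fun x : Fin n → ℝ => ∑ i, m i * D (x i)) (mc w (ordB R)) :=
    integrable_finsetSum _ fun i _ => (hDi i).const_mul (m i)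
  have hprod : Integrable (fun x : Fin n → ℝ => ((∏ i, ρ (x i)) - 1) *
      ((∑ i, m i * x i) - M)) (mc w (ordB R)) := hQ.integrable_mul (hLμ.sub (memLp_const M))
  have hA : ∫ x : Fin n → ℝ, ∑ i, m i * D (x i) ∂(mc w (ordB R)) =
      ∫ x : Fin n → ℝ, ((∏ i, ρ (x i)) - 1) * ((∑ i, m i * x i) - M) ∂(mc w (ordB R)) := by
    have hTr := transport h hD hρ hρ0 hDo hmono hmap R (fun x => ∑ i, m i * x i)
      (by fun_prop)
    simp only at hTr
    have e1 : (fun x : Fin n → ℝ => ∑ i, m i * (x i + D (x i))) =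
        fun x => (∑ i, m i * x i) + ∑ i, m i * D (x i) := by
      funext x
      rw [← Finset.sum_add_distrib]
      exact Finset.sum_congr rfl fun i _ => by ring
    have e2 : (fun x : Fin n → ℝ => (∏ i, ρ (x i)) * ∑ i, m i * x i) =
        fun x => (((∏ i, ρ (x i)) - 1) * ((∑ i, m i * x i) - M) + ∑ i, m i * x i) +
          M * ((∏ i, ρ (x i)) - 1) := by
      funext x
      ring
    have iQ : Integrable (fun x : Fin n → ℝ => (∏ i, ρ (x i)) - 1) (mc w (ordB R)) :=
      hQ.integrable (by norm_num)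
    rw [e1, e2, integral_add hLi hAi,
      integral_add (f := fun x : Fin n → ℝ => ((∏ i, ρ (x i)) - 1) * ((∑ i, m i * x i) - M) +
        ∑ i, m i * x i) (hprod.add hLi) (iQ.const_mul M),
      integral_add hprod hLi, integral_const_mul, hQ0, hEL] at hTr
    linarith
  obtain ⟨σ, hσ⟩ : ∃ σ : ℝ, σ = √s := ⟨_, rfl⟩
  have hσ0 : 0 < σ := by rw [hσ]; exact Real.sqrt_pos.2 hs
  have hσσ : σ ^ 2 = s := by rw [hσ]; exact Real.sq_sqrt hs.le
  -- upper bound
  have hup : ∫ x : Fin n → ℝ, ∑ i, m i * D (x i) ∂(mc w (ordB R)) ≤ 3 * σ * N / w 0 := by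
    rw [hA]
    obtain ⟨t, ht⟩ : ∃ t : ℝ, t = w 0 / (σ * N) := ⟨_, rfl⟩
    have ht0 : 0 < t := by rw [ht]; positivity
    have i1 : Integrable (fun x : Fin n → ℝ => ((∑ i, m i * x i) - M) ^ 2) (mc w (ordB R)) :=
      (hLμ.sub (memLp_const M)).integrable_sq
    have i2 : Integrable (fun x : Fin n → ℝ => ((∏ i, ρ (x i)) - 1) ^ 2) (mc w (ordB R)) :=
      hQ.integrable_sq
    have e1 : ∫ x : Fin n → ℝ, ((∏ i, ρ (x i)) - 1) * ((∑ i, m i * x i) - M) ∂(mc w (ordB R)) ≤
        ∫ x : Fin n → ℝ, (t / 2 * ((∑ i, m i * x i) - M) ^ 2 +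
          1 / (2 * t) * ((∏ i, ρ (x i)) - 1) ^ 2) ∂(mc w (ordB R)) := by
      refine integral_mono hprod ((i1.const_mul _).add (i2.const_mul _)) fun x => ?_
      simp only
      generalize (∑ i, m i * x i) - M = X
      generalize (∏ i, ρ (x i)) - 1 = Y
      have h3 : 0 ≤ (t * X - Y) ^ 2 / (2 * t) := by positivity
      have h4 : (t * X - Y) ^ 2 / (2 * t) = t / 2 * X ^ 2 + 1 / (2 * t) * Y ^ 2 - Y * X := by
        field_simp
        ring
      linarith
    rw [integral_add (i1.const_mul _) (i2.const_mul _), integral_const_mul,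
      integral_const_mul] at e1
    have e2 : t / 2 * ∫ x : Fin n → ℝ, ((∑ i, m i * x i) - M) ^ 2 ∂(mc w (ordB R)) ≤
        t / 2 * (s * (n * (4 / w 0 ^ 2))) :=
      mul_le_mul_of_nonneg_left (hVL.trans (mul_le_mul_of_nonneg_left hMle hs.le)) (by positivity)
    have e3 : 1 / (2 * t) * ∫ x : Fin n → ℝ, ((∏ i, ρ (x i)) - 1) ^ 2 ∂(mc w (ordB R)) ≤
        1 / (2 * t) * 2 := mul_le_mul_of_nonneg_left hQ2 (by positivity)
    have e4 : t / 2 * (s * (n * (4 / w 0 ^ 2))) + 1 / (2 * t) * 2 = 3 * σ * N / w 0 := by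
      rw [ht, ← hσσ, ← hNN]
      field_simp
      ring
    linarith
  -- lower bound
  have hD2 : MemLp D 2 (nu w) := MemLp.of_bound hD.aestronglyMeasurable b
    (Eventually.of_forall fun x => by rw [Real.norm_eq_abs]; exact hDx _)
  have hxD : Integrable (fun x => x * D x) (nu w) := hx2.integrable_mul hD2
  have hxDP : ∀ i : Fin n, Integrable (fun x : Fin n → ℝ => x i * D (x i)) (pn w n) := fun i =>
    ((hmp i).integrable_comp hxD.aestronglyMeasurable).2 hxD
  have hxDμ : ∀ i : Fin n, Integrable (fun x : Fin n → ℝ => x i * D (x i)) (mc w (ordB R)) :=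
    fun i => (hxμ i).integrable_mul (hDL i)
  have hB : ∫ x : Fin n → ℝ, ∑ i, x i * D (x i) ∂(mc w (ordB R)) =
      n * ∫ x, x * D x ∂(nu w) := by
    rw [int_symB hSYM h hev R h0 (integrable_finsetSum _ fun i _ => hxDP i)
      (symB_sum (φ := fun x => x * D x) fun x => by rw [hDo]; ring),
      integral_finsetSum _ fun i _ => hxDP i,
      Finset.sum_congr rfl fun i _ => hcoord (fun x => x * D x) (measurable_id.mul hD) i]
    simp
  have hlow : n * (∫ x, x * D x ∂(nu w)) - ∫ x : Fin n → ℝ, ∑ i, m i * D (x i) ∂(mc w (ordB R)) ≤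
      n * (b * σ) := by
    rw [← hB, ← integral_sub (integrable_finsetSum _ fun i _ => hxDμ i) hAi]
    have i1 : ∀ i : Fin n, Integrable (fun x : Fin n → ℝ => (x i - m i) ^ 2) (mc w (ordB R)) :=
      fun i => ((hxμ i).sub (memLp_const (m i))).integrable_sq
    have i2 : ∀ i : Fin n, Integrable (fun x : Fin n → ℝ =>
        b / (2 * σ) * (x i - m i) ^ 2 + b * σ / 2) (mc w (ordB R)) := fun i =>
      ((i1 i).const_mul _).add (integrable_const _)
    have e1 : ∫ x : Fin n → ℝ, ((∑ i, x i * D (x i)) - ∑ i, m i * D (x i)) ∂(mc w (ordB R)) ≤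
        ∫ x : Fin n → ℝ, ∑ i, (b / (2 * σ) * (x i - m i) ^ 2 + b * σ / 2) ∂(mc w (ordB R)) := by
      refine integral_mono ((integrable_finsetSum _ fun i _ => hxDμ i).sub hAi)
        (integrable_finsetSum _ fun i _ => i2 i) fun x => ?_
      simp only
      rw [← Finset.sum_sub_distrib]
      refine Finset.sum_le_sum fun i _ => ?_
      have h1 : x i * D (x i) - m i * D (x i) ≤ |x i - m i| * b := by
        rw [← sub_mul]
        refine (le_abs_self _).trans ?_
        rw [abs_mul]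
        exact mul_le_mul_of_nonneg_left (hDx _) (abs_nonneg _)
      have h2 : 0 ≤ b * (|x i - m i| - σ) ^ 2 / (2 * σ) := by positivity
      have h3 : b * (|x i - m i| - σ) ^ 2 / (2 * σ) =
          b / (2 * σ) * (x i - m i) ^ 2 + b * σ / 2 - |x i - m i| * b := by
        rw [← sq_abs (x i - m i)]
        field_simp
        ring
      linarith
    refine e1.trans ?_
    rw [integral_finsetSum _ fun i _ => i2 i]
    have e2 : ∀ i : Fin n, ∫ x : Fin n → ℝ, (b / (2 * σ) * (x i - m i) ^ 2 + b * σ / 2)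
        ∂(mc w (ordB R)) ≤ b * σ := by
      intro i
      rw [integral_add ((i1 i).const_mul _) (integrable_const _), integral_const_mul]
      have e3 : b / (2 * σ) * ∫ x : Fin n → ℝ, (x i - m i) ^ 2 ∂(mc w (ordB R)) ≤
          b / (2 * σ) * s := mul_le_mul_of_nonneg_left (hVi i) (by positivity)
      have e4 : b / (2 * σ) * s = b * σ / 2 := by
        rw [← hσσ]
        field_simp
      simp
      linarith
    calc _ ≤ ∑ _i : Fin n, b * σ := Finset.sum_le_sum fun i _ => e2 i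
      _ = n * (b * σ) := by simp
  have hfin : (n : ℝ) * (ε / (C * w 0 ^ 2)) ≤ 3 * σ * N / w 0 + n * (b * σ) := by
    have := mul_le_mul_of_nonneg_left hID hn0.le
    linarith
  have hfin2 : 1 ≤ C * (6 + C) * (σ * w 0) := by
    rw [← hNN, hb, hε] at hfin
    have e1 : N ^ 2 * (1 / (2 * N) / (C * w 0 ^ 2)) = N / (2 * C * w 0 ^ 2) * 1 := by
      field_simp
    have e2 : 3 * σ * N / w 0 + N ^ 2 * (C * (1 / (2 * N)) / w 0 * σ) =
        N / (2 * C * w 0 ^ 2) * (C * (6 + C) * (σ * w 0)) := by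
      field_simp
      ring
    rw [e1, e2] at hfin
    exact le_of_mul_le_mul_left hfin (by positivity)
  have hfin3 : 1 / (C * (6 + C)) ≤ σ * w 0 := by
    rw [div_le_iff₀ (by positivity)]
    linarith
  calc (1 / (C * (6 + C))) ^ 2 ≤ (σ * w 0) ^ 2 := pow_le_pow_left₀ (by positivity) hfin3 2
    _ = s * w 0 ^ 2 := by rw [mul_pow, hσσ]

end Pool.Agent.J4H98.KB
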